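import Mathlib

namespace Pool.Agent.Results.MP_13fe47_al.VirtuallyAbelian

open Filter Topology Pointwise

/-! ### Balls and growth -/

section Growth

variable {G : Type} [Group G]

/-- The ball of radius `n`: products of at most `n` elements of `X ∪ X⁻¹`. -/
def ball (X : Finset G) (n : ℕ) : Set G :=
  {g | ∃ l : List G, l.length ≤ n ∧ (∀ x ∈ l, x ∈ X ∨ x⁻¹ ∈ X) ∧ l.prod = g}

open Classical in
/-- The symmetric generating set together with the identity. -/
noncomputable def U (X : Finset G) : Finset G := insert 1 (X ∪ X⁻¹)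

theorem mem_U {X : Finset G} {x : G} : x ∈ U X ↔ x = 1 ∨ x ∈ X ∨ x⁻¹ ∈ X := by
  classical
  unfold U
  rw [Finset.mem_insert, Finset.mem_union, Finset.mem_inv']

open Classical in
theorem ball_eq (X : Finset G) (n : ℕ) : ball X n = ((U X ^ n : Finset G) : Set G) := by
  ext g
  constructor
  · rintro ⟨l, hl, hX, rfl⟩
    have h1 : l.prod ∈ U X ^ l.length := by
      clear hl
      induction l with
      | nil => simp
      | cons a l ih =>
        rw [List.prod_cons, List.length_cons, pow_succ']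
        exact Finset.mul_mem_mul (mem_U.2 (Or.inr (hX a List.mem_cons_self)))
          (ih fun x hx => hX x (List.mem_cons_of_mem _ hx))
    exact Finset.pow_subset_pow_right (mem_U.2 (Or.inl rfl)) hl h1
  · intro hg
    rw [Finset.mem_coe] at hg
    induction n generalizing g with
    | zero =>
      rw [pow_zero, Finset.mem_one] at hg
      exact ⟨[], by simp, by simp, by simp [hg]⟩
    | succ n ih =>
      rw [pow_succ', Finset.mem_mul] at hg
      obtain ⟨a, ha, b, hb, rfl⟩ := hg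
      obtain ⟨l, h1, h2, h3⟩ := ih b hb
      rcases mem_U.1 ha with rfl | ha
      · exact ⟨l, by omega, h2, by simpa using h3⟩
      · refine ⟨a :: l, by simpa using h1, ?_, by simp [h3]⟩
        intro x hx
        rcases List.mem_cons.1 hx with rfl | hx
        · exact ha
        · exact h2 x hx

open Classical in
/-- The cardinality of the ball of radius `n`. -/
noncomputable def f (X : Finset G) (n : ℕ) : ℕ := (U X ^ n).card

theorem one_mem_U (X : Finset G) : (1 : G) ∈ U X := mem_U.2 (Or.inl rfl)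

open Classical in
theorem one_mem_Un (X : Finset G) (n : ℕ) : (1 : G) ∈ U X ^ n :=
  Finset.one_mem_pow (one_mem_U X)

theorem f_pos (X : Finset G) (n : ℕ) : 0 < f X n := by
  classical
  exact Finset.card_pos.2 ⟨1, one_mem_Un X n⟩

theorem f_mono (X : Finset G) {m n : ℕ} (h : m ≤ n) : f X m ≤ f X n := by
  classical
  exact Finset.card_le_card (Finset.pow_subset_pow_right (one_mem_U X) h)

open Classical in
theorem U_inv (X : Finset G) (n : ℕ) : (U X ^ n)⁻¹ = U X ^ n := by
  have h : (U X)⁻¹ = U X := by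
    ext x
    rw [Finset.mem_inv', mem_U, mem_U, inv_inv, inv_eq_one]
    tauto
  rw [← inv_pow, h]

/-! ### Decay of annuli in doubling groups -/

open Classical in
theorem annulus (X : Finset G) (C : ℕ) (hC : ∀ r, f X (4 * r) ≤ C * f X r) (n r : ℕ)
    (hr : 4 * r ≤ n) :
    (U X ^ n \ U X ^ (n - r)).card ≤ C * (U X ^ (n - r) \ U X ^ (n - 4 * r)).card := by
  set Y : Finset G := U X ^ (n - 2 * r) \ U X ^ (n - 3 * r) with hY
  set B : Finset G := U X ^ r with hB
  have hBne : B.Nonempty := ⟨1, one_mem_Un X r⟩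
  have hBpos : (0 : ℝ) < B.card := by exact_mod_cast Finset.card_pos.2 hBne
  obtain ⟨F, hFY, hF1, hF2⟩ := Finset.ruzsa_covering_mul (A := Y) (B := B)
    (K := ((Y * B).card : ℝ) / B.card) hBne (by rw [div_mul_cancel₀ _ hBpos.ne'])
  have hsub1 : Y * B ⊆ U X ^ (n - r) \ U X ^ (n - 4 * r) := by
    intro z hz
    obtain ⟨y, hy, b, hb, rfl⟩ := Finset.mem_mul.1 hz
    rw [hY, Finset.mem_sdiff] at hy
    rw [Finset.mem_sdiff]
    constructor
    · have := Finset.mul_mem_mul hy.1 hb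
      rw [hB, ← pow_add] at this
      exact Finset.pow_subset_pow_right (one_mem_U X) (by omega) this
    · intro hz
      apply hy.2
      have hb' : b⁻¹ ∈ (U X ^ r)⁻¹ := Finset.inv_mem_inv hb
      rw [U_inv] at hb'
      have := Finset.mul_mem_mul hz hb'
      rw [← pow_add, mul_inv_cancel_right] at this
      exact Finset.pow_subset_pow_right (one_mem_U X) (by omega) this
  have hsub2 : U X ^ n \ U X ^ (n - r) ⊆ F * U X ^ (4 * r) := by
    intro x hx
    rw [Finset.mem_sdiff] at hx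
    have h1 : x ∈ U X ^ (n - 2 * r) * U X ^ (2 * r) := by
      rw [← pow_add, Nat.sub_add_cancel (by omega)]; exact hx.1
    obtain ⟨y, hy, z, hz, rfl⟩ := Finset.mem_mul.1 h1
    have hyY : y ∈ Y := by
      rw [hY, Finset.mem_sdiff]
      refine ⟨hy, fun h => hx.2 ?_⟩
      have := Finset.mul_mem_mul h hz
      rw [← pow_add] at this
      exact Finset.pow_subset_pow_right (one_mem_U X) (by omega) this
    obtain ⟨p, hp, q, hq, rfl⟩ := Finset.mem_mul.1 (hF2 hyY)
    rw [mul_assoc]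
    refine Finset.mul_mem_mul hp ?_
    have hq' : q ∈ U X ^ (2 * r) := by
      rw [div_eq_mul_inv, hB, U_inv, ← pow_add] at hq
      rwa [two_mul]
    have := Finset.mul_mem_mul hq' hz
    rw [← pow_add] at this
    convert this using 2
    omega
  have h3 : ((U X ^ n \ U X ^ (n - r)).card : ℝ) ≤ F.card * (C * B.card) := by
    calc ((U X ^ n \ U X ^ (n - r)).card : ℝ) ≤ ((F * U X ^ (4 * r)).card : ℝ) := by
          exact_mod_cast Finset.card_le_card hsub2
      _ ≤ (F.card : ℝ) * ((U X ^ (4 * r)).card : ℝ) := by exact_mod_cast Finset.card_mul_le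
      _ ≤ _ := by
        gcongr
        exact_mod_cast hC r
  have h4 : (F.card : ℝ) * B.card ≤ (U X ^ (n - r) \ U X ^ (n - 4 * r)).card := by
    calc (F.card : ℝ) * B.card ≤ ((Y * B).card : ℝ) / B.card * B.card := by gcongr
      _ = (Y * B).card := div_mul_cancel₀ _ hBpos.ne'
      _ ≤ _ := by exact_mod_cast Finset.card_le_card hsub1
  have h5 : ((U X ^ n \ U X ^ (n - r)).card : ℝ) ≤
      C * (U X ^ (n - r) \ U X ^ (n - 4 * r)).card := by
    calc ((U X ^ n \ U X ^ (n - r)).card : ℝ) ≤ F.card * (C * B.card) := h3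
      _ = C * (F.card * B.card) := by ring
      _ ≤ _ := by gcongr
  exact_mod_cast h5

theorem annulus_iter (X : Finset G) (C : ℕ) (hC : ∀ r, f X (4 * r) ≤ C * f X r) (n r : ℕ)
    (hr : 4 * r ≤ n) :
    (C + 1) * (f X n - f X (n - r)) ≤ C * (f X n - f X (n - 4 * r)) := by
  classical
  have h := annulus X C hC n r hr
  have e1 : (U X ^ n \ U X ^ (n - r)).card = f X n - f X (n - r) :=
    Finset.card_sdiff_of_subset (Finset.pow_subset_pow_right (one_mem_U X) (by omega))
  have e2 : (U X ^ (n - r) \ U X ^ (n - 4 * r)).card = f X (n - r) - f X (n - 4 * r) :=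
    Finset.card_sdiff_of_subset (Finset.pow_subset_pow_right (one_mem_U X) (by omega))
  rw [e1, e2] at h
  have m1 : f X (n - r) ≤ f X n := f_mono X (by omega)
  have m2 : f X (n - 4 * r) ≤ f X (n - r) := f_mono X (by omega)
  have e3 : f X n - f X (n - 4 * r) = (f X n - f X (n - r)) + (f X (n - r) - f X (n - 4 * r)) := by
    omega
  rw [e3, mul_add, add_mul, one_mul]
  omega

theorem annulus_pow (X : Finset G) (C : ℕ) (hC : ∀ r, f X (4 * r) ≤ C * f X r) (n j : ℕ)
    (hj : 4 ^ j ≤ n) :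
    (C + 1) ^ j * (f X n - f X (n - 1)) ≤ C ^ j * (f X n - f X (n - 4 ^ j)) := by
  induction j with
  | zero => simp
  | succ j ih =>
    have h1 := ih (le_trans (Nat.pow_le_pow_right (by norm_num) (Nat.le_succ j)) hj)
    have h2 := annulus_iter X C hC n (4 ^ j) (by rw [← pow_succ']; exact hj)
    rw [← pow_succ'] at h2
    calc (C + 1) ^ (j + 1) * (f X n - f X (n - 1))
        = (C + 1) * ((C + 1) ^ j * (f X n - f X (n - 1))) := by ring
      _ ≤ (C + 1) * (C ^ j * (f X n - f X (n - 4 ^ j))) := by gcongr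
      _ = C ^ j * ((C + 1) * (f X n - f X (n - 4 ^ j))) := by ring
      _ ≤ C ^ j * (C * (f X n - f X (n - 4 ^ (j + 1)))) := by gcongr
      _ = _ := by ring

/-- In a doubling group the ratios of consecutive balls tend to one. -/
theorem ratio_one (X : Finset G) (C : ℕ) (hC : ∀ r, f X (4 * r) ≤ C * f X r) :
    Tendsto (fun n => (f X n : ℝ) / f X (n + 1)) atTop (𝓝 1) := by
  rw [Metric.tendsto_atTop]
  intro ε hε
  have hq : ((C : ℝ) / (C + 1)) < 1 := by
    rw [div_lt_one (by positivity)]; linarith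
  obtain ⟨j, hj⟩ := exists_pow_lt_of_lt_one hε hq
  refine ⟨4 ^ j, fun n hn => ?_⟩
  have hpos : (0 : ℝ) < f X (n + 1) := by exact_mod_cast f_pos X (n + 1)
  have hle : (f X n : ℝ) ≤ f X (n + 1) := by exact_mod_cast f_mono X (Nat.le_succ n)
  have h1 := annulus_pow X C hC (n + 1) j (by omega)
  have h2 : ((C : ℝ) + 1) ^ j * (f X (n + 1) - f X n) ≤ C ^ j * f X (n + 1) := by
    have h3 : (C + 1) ^ j * (f X (n + 1) - f X (n + 1 - 1)) ≤ C ^ j * f X (n + 1) :=
      h1.trans (Nat.mul_le_mul_left _ (Nat.sub_le _ _))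
    have h4 : (((C + 1) ^ j * (f X (n + 1) - f X (n + 1 - 1)) : ℕ) : ℝ) ≤
        ((C ^ j * f X (n + 1) : ℕ) : ℝ) := by exact_mod_cast h3
    rw [Nat.add_sub_cancel] at h4
    push_cast [Nat.cast_sub (f_mono X (Nat.le_succ n))] at h4
    exact h4
  rw [Real.dist_eq, abs_sub_comm, abs_of_nonneg (by
    rw [sub_nonneg, div_le_one hpos]; exact hle)]
  have h5 : 1 - (f X n : ℝ) / f X (n + 1) = (f X (n + 1) - f X n) / f X (n + 1) := by
    rw [sub_div, div_self hpos.ne']
  rw [h5]
  refine lt_of_le_of_lt ?_ hj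
  rw [div_le_iff₀ hpos, div_pow, div_mul_eq_mul_div, le_div_iff₀ (by positivity)]
  calc ((f X (n + 1) : ℝ) - f X n) * ((C : ℝ) + 1) ^ j
      = ((C : ℝ) + 1) ^ j * (f X (n + 1) - f X n) := by ring
    _ ≤ _ := h2


/-! ### Doubling in commutative groups -/

/-- Products `∏ e i ^ m i` with `∑ m i ≤ n`. -/
def D {H ι : Type} [CommGroup H] [Fintype ι] (e : ι → H) (n : ℕ) : Set H :=
  {x | ∃ m : ι → ℕ, ∑ i, m i ≤ n ∧ x = ∏ i, e i ^ m i}

section Dbl

variable {H ι : Type} [CommGroup H] [Fintype ι] (e : ι → H)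

theorem D_finite (n : ℕ) : (D e n).Finite := by
  classical
  have h : D e n ⊆ (fun m : ι → Fin (n + 1) => ∏ i, e i ^ (m i : ℕ)) '' Set.univ := by
    rintro x ⟨m, hm, rfl⟩
    refine ⟨fun i => ⟨m i, ?_⟩, trivial, rfl⟩
    have := Finset.single_le_sum (f := m) (fun i _ => Nat.zero_le _) (Finset.mem_univ i)
    omega
  exact (Set.finite_univ.image _).subset h

theorem D_mono {m n : ℕ} (h : m ≤ n) : D e m ⊆ D e n := by
  rintro x ⟨k, hk, rfl⟩
  exact ⟨k, hk.trans h, rfl⟩

theorem D_mul (n : ℕ) (i : ι) {x : H} (hx : x ∈ D e n) : e i * x ∈ D e (n + 1) := by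
  classical
  obtain ⟨m, hm, rfl⟩ := hx
  refine ⟨m + Pi.single i 1, ?_, ?_⟩
  · simp only [Pi.add_apply, Finset.sum_add_distrib, Finset.sum_pi_single', Finset.mem_univ,
      if_true]
    omega
  · simp only [Pi.add_apply, pow_add, Finset.prod_mul_distrib]
    rw [mul_comm]
    congr 1
    rw [Finset.prod_eq_single i]
    · simp
    · intro j _ hj
      simp [Pi.single_eq_of_ne hj]
    · simp

theorem D_double (n : ℕ) : (D e (2 * n)).ncard ≤ 2 ^ Fintype.card ι * (D e n).ncard := by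
  classical
  have h : D e (2 * n) ⊆
      (fun p : H × Finset ι => p.1 * p.1 * ∏ i ∈ p.2, e i) '' (D e n ×ˢ Set.univ) := by
    rintro x ⟨m, hm, rfl⟩
    refine ⟨(∏ i, e i ^ (m i / 2), Finset.univ.filter fun i => m i % 2 = 1), ⟨⟨_, ?_, rfl⟩, trivial⟩,
      ?_⟩
    · have : 2 * ∑ i, m i / 2 ≤ ∑ i, m i := by
        rw [Finset.mul_sum]
        exact Finset.sum_le_sum fun i _ => by omega
      omega
    · simp only
      rw [Finset.prod_filter, ← Finset.prod_mul_distrib, ← Finset.prod_mul_distrib]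
      refine Finset.prod_congr rfl fun i _ => ?_
      have h2 : m i = m i / 2 + m i / 2 + m i % 2 := by omega
      rcases Nat.mod_two_eq_zero_or_one (m i) with h0 | h0
      · rw [h0, if_neg (by norm_num), mul_one, ← pow_add]
        congr 1
        omega
      · rw [h0, if_pos rfl, ← pow_add, ← pow_succ]
        congr 1
        omega
  have hfin : (D e n ×ˢ (Set.univ : Set (Finset ι))).Finite :=
    (D_finite e n).prod Set.finite_univ
  calc (D e (2 * n)).ncard ≤ _ := Set.ncard_le_ncard h (hfin.image _)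
    _ ≤ (D e n ×ˢ (Set.univ : Set (Finset ι))).ncard := Set.ncard_image_le hfin
    _ = _ := by
      rw [Set.ncard_prod, Set.ncard_univ, Nat.card_eq_fintype_card, Fintype.card_finset, mul_comm]

theorem D_double_pow (n j : ℕ) :
    (D e (2 ^ j * n)).ncard ≤ (2 ^ Fintype.card ι) ^ j * (D e n).ncard := by
  induction j with
  | zero => simp
  | succ j ih =>
    have h1 := D_double e (2 ^ j * n)
    rw [← mul_assoc, ← pow_succ'] at h1
    calc _ ≤ _ := h1
      _ ≤ 2 ^ Fintype.card ι * ((2 ^ Fintype.card ι) ^ j * (D e n).ncard) := by gcongr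
      _ = _ := by ring

theorem D_succ (n : ℕ) : (D e (n + 1)).ncard ≤ (Fintype.card ι + 1) * (D e n).ncard := by
  classical
  have h : D e (n + 1) ⊆ (fun p : Option ι × H => (p.1.elim 1 e) * p.2) '' (Set.univ ×ˢ D e n) := by
    rintro x ⟨m, hm, rfl⟩
    by_cases h0 : ∑ i, m i ≤ n
    · exact ⟨(none, ∏ i, e i ^ m i), ⟨trivial, m, h0, rfl⟩, by simp⟩
    · have h1 : ∃ i, 0 < m i := by
        by_contra hcon
        push Not at hcon
        apply h0
        rw [Finset.sum_eq_zero fun i _ => Nat.le_zero.1 (hcon i)]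
        exact Nat.zero_le _
      obtain ⟨i, hi⟩ := h1
      have h2 : m = (m - Pi.single i 1) + Pi.single i 1 := by
        ext j
        by_cases hj : j = i
        · subst hj; simp; omega
        · simp [Pi.single_eq_of_ne hj]
      have h3 : ∑ j, m j = ∑ j, (m - Pi.single i 1 : ι → ℕ) j + 1 := by
        conv_lhs => rw [h2]
        simp only [Pi.add_apply, Finset.sum_add_distrib, Finset.sum_pi_single', Finset.mem_univ,
          if_true]
      refine ⟨(some i, ∏ j, e j ^ (m - Pi.single i 1 : ι → ℕ) j), ⟨trivial, _, by omega, rfl⟩, ?_⟩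
      simp only [Option.elim_some]
      conv_rhs => rw [h2]
      simp only [Pi.add_apply, pow_add, Finset.prod_mul_distrib]
      rw [mul_comm]
      congr 1
      rw [Finset.prod_eq_single i]
      · simp
      · intro j _ hj
        simp [Pi.single_eq_of_ne hj]
      · simp
  have hfin : ((Set.univ : Set (Option ι)) ×ˢ D e n).Finite := Set.finite_univ.prod (D_finite e n)
  calc (D e (n + 1)).ncard ≤ _ := Set.ncard_le_ncard h (hfin.image _)
    _ ≤ ((Set.univ : Set (Option ι)) ×ˢ D e n).ncard := Set.ncard_image_le hfin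
    _ = _ := by
      rw [Set.ncard_prod, Set.ncard_univ, Nat.card_eq_fintype_card, Fintype.card_option]

end Dbl


open Classical in
theorem exists_ball (X : Finset G) (hX : Subgroup.closure (X : Set G) = ⊤) (g : G) :
    ∃ n, g ∈ U X ^ n := by
  have hg : g ∈ Subgroup.closure (X : Set G) := by rw [hX]; trivial
  induction hg using Subgroup.closure_induction with
  | mem x hx => exact ⟨1, by rw [pow_one]; exact mem_U.2 (Or.inr (Or.inl hx))⟩
  | one => exact ⟨0, by simp⟩
  | mul a b _ _ ha hb =>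
    obtain ⟨m, hm⟩ := ha
    obtain ⟨n, hn⟩ := hb
    exact ⟨m + n, by rw [pow_add]; exact Finset.mul_mem_mul hm hn⟩
  | inv a _ ha =>
    obtain ⟨m, hm⟩ := ha
    refine ⟨m, ?_⟩
    have := Finset.inv_mem_inv hm
    rwa [U_inv] at this

/-- Finitely generated virtually abelian groups are doubling. -/
theorem doubling (A : Subgroup G) [hN : A.Normal] [hF : A.FiniteIndex]
    (hc : ∀ a ∈ A, ∀ b ∈ A, a * b = b * a) (X : Finset G)
    (hX : Subgroup.closure (X : Set G) = ⊤) : ∃ C, ∀ r, f X (4 * r) ≤ C * f X r := by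
  classical
  let _ : CommGroup A := { (inferInstance : Group A) with
    mul_comm := fun a b => Subtype.ext (hc a a.2 b b.2) }
  have : Fintype (G ⧸ A) := Fintype.ofFinite _
  let σ : G ⧸ A → G := Quotient.out
  have hσ : ∀ q : G ⧸ A, ((σ q : G) : G ⧸ A) = q := fun q => Quotient.out_eq q
  let e : Option ((G ⧸ A) × ↥(U X)) → A := fun i => match i with
    | none => ⟨(σ 1)⁻¹, A.inv_mem (by rw [← QuotientGroup.eq_one_iff, hσ])⟩
    | some (q, s) => ⟨(σ (((s : G) : G ⧸ A) * q))⁻¹ * ((s : G) * σ q), by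
        rw [← QuotientGroup.eq, hσ, QuotientGroup.mk_mul, hσ]⟩
  have claim1 : ∀ n, ∀ g ∈ U X ^ n, ∃ q : G ⧸ A, ∃ a ∈ D e (n + 1), g = σ q * (a : G) := by
    intro n
    induction n with
    | zero =>
      intro g hg
      rw [pow_zero, Finset.mem_one] at hg
      subst hg
      refine ⟨1, e none, ?_, ?_⟩
      · have h0 : (1 : A) ∈ D e 0 := ⟨0, by simp, by simp⟩
        have := D_mul e 0 none h0
        rwa [mul_one] at this
      · show (1 : G) = σ 1 * (σ 1)⁻¹
        rw [mul_inv_cancel]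
    | succ n ih =>
      intro g hg
      rw [pow_succ', Finset.mem_mul] at hg
      obtain ⟨s, hs, g', hg', rfl⟩ := hg
      obtain ⟨q, a, ha, rfl⟩ := ih g' hg'
      refine ⟨(s : G ⧸ A) * q, e (some (q, ⟨s, hs⟩)) * a,
        D_mul e (n + 1) (some (q, ⟨s, hs⟩)) ha, ?_⟩
      show s * (σ q * (a : G)) = σ ((s : G ⧸ A) * q) *
        ((σ (((s : G) : G ⧸ A) * q))⁻¹ * ((s : G) * σ q) * (a : G))
      group
  have claim1' : ∀ n, f X n ≤ Fintype.card (G ⧸ A) * (D e (n + 1)).ncard := by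
    intro n
    have hfin : ((Set.univ : Set (G ⧸ A)) ×ˢ D e (n + 1)).Finite :=
      Set.finite_univ.prod (D_finite e (n + 1))
    have hsub : ((U X ^ n : Finset G) : Set G) ⊆
        (fun p : (G ⧸ A) × A => σ p.1 * (p.2 : G)) '' (Set.univ ×ˢ D e (n + 1)) := by
      intro g hg
      obtain ⟨q, a, ha, rfl⟩ := claim1 n g hg
      exact ⟨(q, a), ⟨trivial, ha⟩, rfl⟩
    unfold f
    rw [← Set.ncard_coe_finset]
    calc _ ≤ _ := Set.ncard_le_ncard hsub (hfin.image _)
      _ ≤ _ := Set.ncard_image_le hfin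
      _ = _ := by
        rw [Set.ncard_prod, Set.ncard_univ, Nat.card_eq_fintype_card]
  -- the generators of `A` lie in a ball
  have hL : ∃ L, 1 ≤ L ∧ ∀ i, ((e i : A) : G) ∈ U X ^ L := by
    choose n hn using fun i => exists_ball X hX ((e i : A) : G)
    refine ⟨(∑ i, n i) + 1, by omega, fun i => ?_⟩
    refine Finset.pow_subset_pow_right (one_mem_U X) ?_ (hn i)
    have := Finset.single_le_sum (f := n) (fun i _ => Nat.zero_le _) (Finset.mem_univ i)
    omega
  obtain ⟨L, hL1, hL⟩ := hL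
  have claim2 : ∀ n, (D e n).ncard ≤ f X (L * n) := by
    intro n
    have hmem : ∀ (s : Finset (Option ((G ⧸ A) × ↥(U X)))) (m : Option ((G ⧸ A) × ↥(U X)) → ℕ),
        ((∏ i ∈ s, e i ^ m i : A) : G) ∈ U X ^ (L * ∑ i ∈ s, m i) := by
      intro s m
      induction s using Finset.induction_on with
      | empty => simp
      | insert i s hi ih =>
        rw [Finset.prod_insert hi, Finset.sum_insert hi, mul_add, pow_add, Subgroup.coe_mul]
        refine Finset.mul_mem_mul ?_ ih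
        rw [pow_mul, Subgroup.coe_pow]
        exact Finset.pow_mem_pow (hL i)
    have hsub : (fun a : A => (a : G)) '' D e n ⊆ ((U X ^ (L * n) : Finset G) : Set G) := by
      rintro _ ⟨a, ⟨m, hm, rfl⟩, rfl⟩
      exact Finset.pow_subset_pow_right (one_mem_U X) (Nat.mul_le_mul_left _ hm)
        (hmem Finset.univ m)
    unfold f
    rw [← Set.ncard_coe_finset, ← Set.ncard_image_of_injective (D e n) Subtype.coe_injective]
    exact Set.ncard_le_ncard hsub (Finset.finite_toSet _)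
  set c := 2 ^ Fintype.card (Option ((G ⧸ A) × ↥(U X))) with hcdef
  refine ⟨Fintype.card (G ⧸ A) * (c ^ (4 * L) *
    (Fintype.card (Option ((G ⧸ A) × ↥(U X))) + 1)), fun r => ?_⟩
  have h1 : 4 * r + 1 ≤ 2 ^ (4 * L) * (r / L + 1) := by
    have h2 : r < L * (r / L + 1) := by
      have := Nat.lt_mul_div_succ r (by omega : 0 < L)
      exact this
    have h3 : 4 * L < 2 ^ (4 * L) := Nat.lt_two_pow_self
    calc 4 * r + 1 ≤ 4 * L * (r / L + 1) := by
          rw [mul_assoc]; omega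
      _ ≤ _ := Nat.mul_le_mul_right _ h3.le
  have h4 : L * (r / L) ≤ r := Nat.mul_div_le r L
  calc f X (4 * r) ≤ Fintype.card (G ⧸ A) * (D e (4 * r + 1)).ncard := claim1' _
    _ ≤ Fintype.card (G ⧸ A) * (D e (2 ^ (4 * L) * (r / L + 1))).ncard := by
        gcongr
        · exact D_finite e _
        · exact D_mono e h1
    _ ≤ Fintype.card (G ⧸ A) * (c ^ (4 * L) * (D e (r / L + 1)).ncard) := by
        gcongr
        exact D_double_pow e _ _
    _ ≤ Fintype.card (G ⧸ A) * (c ^ (4 * L) *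
        ((Fintype.card (Option ((G ⧸ A) × ↥(U X))) + 1) * (D e (r / L)).ncard)) := by
        gcongr
        exact D_succ e _
    _ ≤ Fintype.card (G ⧸ A) * (c ^ (4 * L) *
        ((Fintype.card (Option ((G ⧸ A) × ↥(U X))) + 1) * f X r)) := by
        gcongr
        exact (claim2 _).trans (f_mono X h4)
    _ = _ := by ring


/-! ### Equidistribution of balls in cosets -/

theorem ratio_shift (X : Finset G)
    (hr : Tendsto (fun n => (f X n : ℝ) / f X (n + 1)) atTop (𝓝 1)) (d : ℕ) :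
    Tendsto (fun n => (f X n : ℝ) / f X (n + d)) atTop (𝓝 1) := by
  induction d with
  | zero =>
    refine tendsto_const_nhds.congr fun n => ?_
    rw [add_zero, div_self]
    exact_mod_cast (f_pos X n).ne'
  | succ d ih =>
    have h1 : Tendsto (fun n => (f X (n + d) : ℝ) / f X (n + d + 1)) atTop (𝓝 1) :=
      hr.comp (tendsto_add_atTop_nat d)
    have h2 := ih.mul h1
    rw [mul_one] at h2
    refine h2.congr fun n => ?_
    have h3 : (f X (n + d) : ℝ) ≠ 0 := by exact_mod_cast (f_pos X (n + d)).ne'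
    rw [div_mul_div_cancel₀ h3, add_assoc]

open Classical in
/-- Number of elements of the ball in a given coset. -/
noncomputable def cnt (X : Finset G) (N : Subgroup G) [N.Normal] (q : G ⧸ N) (n : ℕ) : ℕ :=
  ((U X ^ n).filter fun g : G => (g : G ⧸ N) = q).card

theorem cnt_sum (X : Finset G) (N : Subgroup G) [N.Normal] [Fintype (G ⧸ N)] (n : ℕ) :
    ∑ q : G ⧸ N, cnt X N q n = f X n := by
  classical
  unfold cnt f
  exact (Finset.card_eq_sum_card_fiberwise (f := fun g : G => (g : G ⧸ N))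
    (s := U X ^ n) (t := Finset.univ) (fun _ _ => Finset.mem_coe.2 (Finset.mem_univ _))).symm

theorem cnt_le (X : Finset G) (N : Subgroup G) [N.Normal] (q : G ⧸ N) (n d : ℕ) (s : G)
    (hs : s ∈ (by classical exact U X ^ d : Finset G)) :
    cnt X N q n ≤ cnt X N (q * (s : G ⧸ N)) (n + d) := by
  classical
  unfold cnt
  refine Finset.card_le_card_of_injOn (fun g => g * s) ?_ ?_
  · intro g hg
    rw [Finset.mem_coe, Finset.mem_filter] at hg ⊢
    constructor
    · rw [pow_add]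
      have := Finset.mul_mem_mul hg.1 hs
      convert this
    · rw [QuotientGroup.mk_mul, hg.2]
  · intro g _ g' _ h
    exact mul_right_cancel h

theorem equi (X : Finset G) (hX : Subgroup.closure (X : Set G) = ⊤)
    (hr : Tendsto (fun n => (f X n : ℝ) / f X (n + 1)) atTop (𝓝 1))
    (N : Subgroup G) [N.Normal] [N.FiniteIndex] (q : G ⧸ N) :
    Tendsto (fun n => (cnt X N q n : ℝ) / f X n) atTop (𝓝 (1 / Nat.card (G ⧸ N))) := by
  classical
  have : Fintype (G ⧸ N) := Fintype.ofFinite _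
  have hd : ∃ d, ∀ r : G ⧸ N, ∃ s : G, (s : G ⧸ N) = r ∧ s ∈ U X ^ d := by
    have h1 : ∀ r : G ⧸ N, ∃ n, (Quotient.out r : G) ∈ U X ^ n := fun r => exists_ball X hX _
    choose n hn using h1
    refine ⟨∑ r, n r, fun r => ⟨Quotient.out r, Quotient.out_eq r, ?_⟩⟩
    refine Finset.pow_subset_pow_right (one_mem_U X) ?_ (hn r)
    exact Finset.single_le_sum (f := n) (fun i _ => Nat.zero_le _) (Finset.mem_univ r)
  obtain ⟨d, hd⟩ := hd
  have key : ∀ q q' : G ⧸ N, ∀ n, cnt X N q n ≤ cnt X N q' (n + d) := by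
    intro q q' n
    obtain ⟨s, hs1, hs2⟩ := hd (q⁻¹ * q')
    have := cnt_le X N q n d s hs2
    rwa [hs1, mul_inv_cancel_left] at this
  set m : ℕ := Fintype.card (G ⧸ N) with hm
  have hmpos : (0 : ℝ) < m := by exact_mod_cast Fintype.card_pos
  have hup : ∀ n, (m : ℝ) * cnt X N q n ≤ f X (n + d) := by
    intro n
    have : m * cnt X N q n ≤ f X (n + d) := by
      rw [← cnt_sum X N (n + d), hm, ← Finset.card_univ, ← smul_eq_mul, ← Finset.sum_const]
      exact Finset.sum_le_sum fun q' _ => key q q' n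
    exact_mod_cast this
  have hlo : ∀ n, (f X n : ℝ) ≤ m * cnt X N q (n + d) := by
    intro n
    have : f X n ≤ m * cnt X N q (n + d) := by
      rw [← cnt_sum X N n, hm, ← Finset.card_univ, ← smul_eq_mul, ← Finset.sum_const]
      exact Finset.sum_le_sum fun q' _ => key q' q n
    exact_mod_cast this
  rw [← tendsto_add_atTop_iff_nat d, Nat.card_eq_fintype_card, ← hm]
  have h1 := (ratio_shift X hr d).const_mul (1 / (m : ℝ))
  have h2 : Tendsto (fun n => (1 / (m : ℝ)) * ((f X (n + d) : ℝ) / f X (n + d + d))⁻¹) atTop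
      (𝓝 (1 / (m : ℝ) * 1⁻¹)) :=
    (((ratio_shift X hr d).comp (tendsto_add_atTop_nat d)).inv₀ one_ne_zero).const_mul _
  rw [mul_one] at h1
  rw [inv_one, mul_one] at h2
  refine tendsto_of_tendsto_of_tendsto_of_le_of_le h1 h2 (fun n => ?_) (fun n => ?_)
  · have hp : (0 : ℝ) < f X (n + d) := by exact_mod_cast f_pos X _
    simp only
    rw [div_mul_div_comm, one_mul, div_le_div_iff₀ (by positivity) hp]
    have := hlo n
    calc (f X n : ℝ) * f X (n + d) ≤ (m * cnt X N q (n + d)) * f X (n + d) := by gcongr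
      _ = _ := by ring
  · have hp : (0 : ℝ) < f X (n + d) := by exact_mod_cast f_pos X _
    simp only
    rw [inv_div, div_mul_div_comm, one_mul, div_le_div_iff₀ hp (by positivity)]
    have := hup (n + d)
    calc (cnt X N q (n + d) : ℝ) * (m * f X (n + d)) = (m * cnt X N q (n + d)) * f X (n + d) := by
          ring
      _ ≤ _ := by gcongr

/-- Pairs of elements of the ball lying over a set of pairs of cosets. -/
theorem equi_pairs (X : Finset G) (hX : Subgroup.closure (X : Set G) = ⊤)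
    (hr : Tendsto (fun n => (f X n : ℝ) / f X (n + 1)) atTop (𝓝 1))
    (N : Subgroup G) [N.Normal] [N.FiniteIndex] (P : Set ((G ⧸ N) × (G ⧸ N))) :
    Tendsto (fun n => (Nat.card {p : G × G | p.1 ∈ ball X n ∧ p.2 ∈ ball X n ∧
      ((p.1 : G ⧸ N), (p.2 : G ⧸ N)) ∈ P} : ℝ) / (Nat.card (ball X n) : ℝ) ^ 2) atTop
      (𝓝 ((Nat.card P : ℝ) / (Nat.card (G ⧸ N) : ℝ) ^ 2)) := by
  classical
  have : Fintype (G ⧸ N) := Fintype.ofFinite _
  have h1 : ∀ n, (Nat.card {p : G × G | p.1 ∈ ball X n ∧ p.2 ∈ ball X n ∧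
      ((p.1 : G ⧸ N), (p.2 : G ⧸ N)) ∈ P} : ℝ) =
      ∑ r ∈ P.toFinset, (cnt X N r.1 n : ℝ) * cnt X N r.2 n := by
    intro n
    have e1 : {p : G × G | p.1 ∈ ball X n ∧ p.2 ∈ ball X n ∧
        ((p.1 : G ⧸ N), (p.2 : G ⧸ N)) ∈ P} =
        ((((U X ^ n) ×ˢ (U X ^ n)).filter fun p : G × G => ((p.1 : G ⧸ N), (p.2 : G ⧸ N)) ∈ P : Finset (G × G)) :
          Set (G × G)) := by
      ext p
      simp only [Set.mem_ofPred_eq, ball_eq, Finset.mem_coe, Finset.coe_filter,
        Finset.mem_product, and_assoc]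
    rw [e1, Nat.card_coe_set_eq, Set.ncard_coe_finset]
    rw [Finset.card_eq_sum_card_fiberwise (f := fun p : G × G => ((p.1 : G ⧸ N), (p.2 : G ⧸ N)))
      (t := P.toFinset)]
    · push_cast
      refine Finset.sum_congr rfl fun r hr => ?_
      rw [Set.mem_toFinset] at hr
      unfold cnt
      rw [← Nat.cast_mul, ← Finset.card_product]
      congr 2
      ext p
      simp only [Finset.mem_filter, Finset.mem_product]
      constructor
      · rintro ⟨⟨⟨h1, h2⟩, h3⟩, h4⟩
        rw [Prod.ext_iff] at h4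
        exact ⟨⟨h1, h4.1⟩, ⟨h2, h4.2⟩⟩
      · rintro ⟨⟨h1, h3⟩, ⟨h2, h4⟩⟩
        have h5 : ((p.1 : G ⧸ N), (p.2 : G ⧸ N)) = r := Prod.ext h3 h4
        refine ⟨⟨⟨h1, h2⟩, ?_⟩, h5⟩
        rw [h5]; exact hr
    · intro p hp
      simp only [Finset.mem_coe, Finset.mem_filter] at hp
      simp only [Finset.mem_coe, Set.mem_toFinset]
      exact hp.2
  have h2 : ∀ n, (Nat.card (ball X n) : ℝ) = f X n := by
    intro n
    rw [ball_eq, Nat.card_coe_set_eq, Set.ncard_coe_finset]
    rfl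
  simp only [h1, h2]
  have h3 : Tendsto (fun n => ∑ r ∈ P.toFinset,
      ((cnt X N r.1 n : ℝ) / f X n) * ((cnt X N r.2 n : ℝ) / f X n)) atTop
      (𝓝 (∑ r ∈ P.toFinset, (1 / (Nat.card (G ⧸ N) : ℝ)) * (1 / (Nat.card (G ⧸ N) : ℝ)))) :=
    tendsto_finsetSum _ fun r _ => (equi X hX hr N r.1).mul (equi X hX hr N r.2)
  rw [Finset.sum_const, Set.toFinset_card, nsmul_eq_mul] at h3
  convert h3 using 2
  · rename_i n
    rw [Finset.sum_div]
    refine Finset.sum_congr rfl fun r _ => ?_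
    rw [div_mul_div_comm, sq]
  · rw [Nat.card_eq_fintype_card, div_mul_div_comm, one_mul, mul_one_div, sq]


/-! ### The finite quotients -/

/-- The degree of twisted commutativity of a finite group. -/
noncomputable def tdcFin (F : Type) [Group F] (ψ : F →* F) : ℝ :=
  (Nat.card {p : F × F | p.1 * p.2 = p.2 * ψ p.1} : ℝ) / (Nat.card F : ℝ) ^ 2

/-- The persistent solutions. -/
def PP (A : Subgroup G) (φ : G →* G) : Set (G × G) :=
  {p | (∀ a ∈ A, p.2⁻¹ * a * p.2 = φ a) ∧ (∀ a ∈ A, φ p.1 * a = a * φ p.1) ∧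
    p.1 * p.2 = p.2 * φ p.1}

/-- The image of the persistent solutions in a quotient. -/
def PN (A N : Subgroup G) [N.Normal] (φ : G →* G) : Set ((G ⧸ N) × (G ⧸ N)) :=
  {r | ∃ p ∈ PP A φ, r = ((p.1 : G ⧸ N), (p.2 : G ⧸ N))}

/-- The subgroup `N` is deep enough: non-persistent solutions become rare modulo `N`. -/
structure Good (A N : Subgroup G) (φ : G →* G) (M : ℕ) : Prop where
  g1 : ∀ y : G, (∀ a ∈ A, y⁻¹ * a * y = φ a) ∨
    ∃ a ∈ A, ∀ j, 0 < j → j < M → (y⁻¹ * a ^ j * y) * (φ (a ^ j))⁻¹ ∉ N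
  g2 : ∀ x : G, (∀ a ∈ A, φ x * a = a * φ x) ∨
    ∃ a ∈ A, ∀ j, 0 < j → j < M → ((φ x)⁻¹ * a ^ j * φ x) * (a ^ j)⁻¹ ∉ N
  g3 : ∀ x y : G, (∀ a ∈ A, y⁻¹ * a * y = φ a) → (∀ a ∈ A, φ x * a = a * φ x) →
    x * y ≠ y * φ x → (y * φ x)⁻¹ * (x * y) ∉ N

theorem fin_bound (A N : Subgroup G) [hN : N.Normal] [N.FiniteIndex]
    (hc : ∀ a ∈ A, ∀ b ∈ A, a * b = b * a) (φ : G →* G) (hφA : A ≤ A.comap φ)
    (hφ : N ≤ N.comap φ) (M : ℕ) (hM : 0 < M) (hG : Good A N φ M) :
    tdcFin (G ⧸ N) (QuotientGroup.map N N φ hφ) ≤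
      (Nat.card (PN A N φ) : ℝ) / (Nat.card (G ⧸ N) : ℝ) ^ 2 + 1 / M := by
  classical
  have : Fintype (G ⧸ N) := Fintype.ofFinite _
  set ψ : (G ⧸ N) →* (G ⧸ N) := QuotientGroup.map N N φ hφ with hψ
  have hψmk : ∀ g : G, ψ (g : G ⧸ N) = ((φ g : G) : G ⧸ N) := fun g => rfl
  set B : Subgroup (G ⧸ N) := A.map (QuotientGroup.mk' N) with hB
  have hBc : ∀ a ∈ B, ∀ b ∈ B, a * b = b * a := by
    rintro _ ⟨a, ha, rfl⟩ _ ⟨b, hb, rfl⟩
    rw [← map_mul, ← map_mul, hc a ha b hb]
  have hBψ : ∀ a ∈ B, ψ a ∈ B := by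
    rintro _ ⟨a, ha, rfl⟩
    exact ⟨φ a, hφA ha, rfl⟩
  set S : Finset ((G ⧸ N) × (G ⧸ N)) := Finset.univ.filter fun p => p.1 * p.2 = p.2 * ψ p.1
    with hS
  let K : (G ⧸ N) × (G ⧸ N) → Finset (B × B) := fun r =>
    Finset.univ.filter fun c => (r.1 * (c.1 : G ⧸ N), r.2 * (c.2 : G ⧸ N)) ∈ S
  have hdouble : ∑ r, (K r).card = Fintype.card (B × B) * S.card := by
    simp only [K, Finset.card_filter]
    rw [Finset.sum_comm]
    have : ∀ c : B × B, (∑ r : (G ⧸ N) × (G ⧸ N),
        if (r.1 * (c.1 : G ⧸ N), r.2 * (c.2 : G ⧸ N)) ∈ S then 1 else 0) = S.card := by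
      intro c
      rw [Fintype.sum_equiv ((Equiv.mulRight (c.1 : G ⧸ N)).prodCongr
        (Equiv.mulRight (c.2 : G ⧸ N)))
        (fun r => if (r.1 * (c.1 : G ⧸ N), r.2 * (c.2 : G ⧸ N)) ∈ S then 1 else 0)
        (fun r => if r ∈ S then 1 else 0) (fun r => rfl)]
      rw [Finset.sum_ite_mem, Finset.univ_inter, Finset.sum_const, smul_eq_mul, mul_one]
    rw [Finset.sum_congr rfl fun c _ => this c, Finset.sum_const, Finset.card_univ, smul_eq_mul]
  have hKle : ∀ r, (K r).card ≤ Fintype.card (B × B) := fun r => Finset.card_le_univ _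
  have hKM : ∀ r, r ∉ PN A N φ → M * (K r).card ≤ Fintype.card (B × B) := by
    rintro ⟨u, v⟩ hr
    obtain ⟨x, rfl⟩ := QuotientGroup.mk_surjective u
    obtain ⟨y, rfl⟩ := QuotientGroup.mk_surjective v
    have hmem : ∀ c : B × B, c ∈ K ((x : G ⧸ N), (y : G ⧸ N)) →
        ((x : G ⧸ N) * c.1) * ((y : G ⧸ N) * c.2) = ((y : G ⧸ N) * c.2) * ψ ((x : G ⧸ N) * c.1) := by
      intro c hcK
      simp only [K, hS, Finset.mem_filter, Finset.mem_univ, true_and] at hcK
      exact hcK
    have hinj : ∀ g : Fin M × (K ((x : G ⧸ N), (y : G ⧸ N))) → B × B, Function.Injective g →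
        M * (K ((x : G ⧸ N), (y : G ⧸ N))).card ≤ Fintype.card (B × B) := by
      intro g hg
      have := Fintype.card_le_of_injective g hg
      rwa [Fintype.card_prod, Fintype.card_fin, Fintype.card_coe] at this
    rcases hG.g1 y with h1 | ⟨α, hα, h1⟩
    · rcases hG.g2 x with h2 | ⟨β, hβ, h2⟩
      · -- no solutions
        have h3 : x * y ≠ y * φ x := fun h => hr ⟨(x, y), ⟨h1, h2, h⟩, rfl⟩
        have h4 := hG.g3 x y h1 h2 h3
        have h5 : K ((x : G ⧸ N), (y : G ⧸ N)) = ∅ := by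
          rw [Finset.eq_empty_iff_forall_notMem]
          rintro ⟨⟨_, a, ha, rfl⟩, ⟨_, b, hb, rfl⟩⟩ hcK
          have h6 := hmem _ hcK
          apply h4
          simp only [QuotientGroup.coe_mk', ← QuotientGroup.mk_mul, hψmk] at h6
          rw [QuotientGroup.eq, map_mul] at h6
          have h7 : a * y = y * φ a := by
            rw [← h1 a ha]; group
          have h8 : φ x * b = b * φ x := h2 b hb
          have h9 : b * φ a = φ a * b := hc b hb _ (hφA ha)
          have e1 : x * a * (y * b) = x * y * (b * φ a) := by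
            rw [h9]
            calc x * a * (y * b) = x * (a * y) * b := by group
              _ = _ := by rw [h7]; group
          have e2 : y * b * (φ x * φ a) = y * φ x * (b * φ a) := by
            calc y * b * (φ x * φ a) = y * (b * φ x) * φ a := by group
              _ = _ := by rw [← h8]; group
          rw [e1, e2] at h6
          have h10 : (y * φ x)⁻¹ * (x * y) = (b * φ a) *
              ((x * y * (b * φ a))⁻¹ * (y * φ x * (b * φ a)))⁻¹ * (b * φ a)⁻¹ := by
            group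
          rw [h10]
          exact hN.conj_mem _ (N.inv_mem h6) _
        rw [h5, Finset.card_empty, mul_zero]
        exact Nat.zero_le _
      · -- second coordinate
        have hβB : (β : G ⧸ N) ∈ B := ⟨β, hβ, rfl⟩
        refine hinj (fun p => (p.2.1.1, p.2.1.2 * ⟨(β : G ⧸ N), hβB⟩ ^ (p.1 : ℕ))) ?_
        have key : ∀ (a b b' : B) (k : ℕ), 0 < k → k < M →
            (a, b) ∈ K ((x : G ⧸ N), (y : G ⧸ N)) → (a, b') ∈ K ((x : G ⧸ N), (y : G ⧸ N)) →
            b = b' * ⟨(β : G ⧸ N), hβB⟩ ^ k → False := by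
          intro a b b' k hk hkM h3 h4 h5
          have h3' := hmem _ h3
          have h4' := hmem _ h4
          simp only at h3' h4'
          have h5' : (b : G ⧸ N) = b' * (β : G ⧸ N) ^ k := by rw [h5]; rfl
          apply h2 k hk hkM
          have hak : (β : G ⧸ N) ^ k ∈ B := B.pow_mem hβB k
          have e1 : ψ ((x : G ⧸ N) * a) * (β : G ⧸ N) ^ k =
              (β : G ⧸ N) ^ k * ψ ((x : G ⧸ N) * a) := by
            rw [h5'] at h3'
            have : ((y : G ⧸ N) * b') * (ψ ((x : G ⧸ N) * a) * (β : G ⧸ N) ^ k) =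
                ((y : G ⧸ N) * b') * ((β : G ⧸ N) ^ k * ψ ((x : G ⧸ N) * a)) := by
              rw [← mul_assoc, ← h4', ← mul_assoc _ ((β : G ⧸ N) ^ k)]
              rw [← mul_assoc] at h3'
              rw [← mul_assoc] at h3'
              rw [← mul_assoc (y : G ⧸ N)] at h3'
              rw [← mul_assoc (_ * _) (y : G ⧸ N)]
              exact h3'
            exact mul_left_cancel this
          rw [map_mul] at e1
          have e2 : ψ (a : G ⧸ N) * (β : G ⧸ N) ^ k = (β : G ⧸ N) ^ k * ψ (a : G ⧸ N) :=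
            hBc _ (hBψ _ a.2) _ hak
          have e3 : ψ (x : G ⧸ N) * (β : G ⧸ N) ^ k = (β : G ⧸ N) ^ k * ψ (x : G ⧸ N) := by
            apply mul_right_cancel (b := ψ (a : G ⧸ N))
            rw [mul_assoc, ← e2, ← mul_assoc, e1, mul_assoc]
          rw [← QuotientGroup.eq_one_iff]
          simp only [QuotientGroup.mk_mul, QuotientGroup.mk_inv, QuotientGroup.mk_pow]
          rw [hψmk] at e3
          rw [mul_assoc ((φ x : G) : G ⧸ N)⁻¹, ← e3]
          group
        rintro ⟨i, ⟨⟨a, b⟩, hab⟩⟩ ⟨j, ⟨⟨a', b'⟩, hab'⟩⟩ h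
        simp only [Prod.mk.injEq] at h
        obtain ⟨rfl, h⟩ := h
        rcases lt_trichotomy (i : ℕ) (j : ℕ) with hij | hij | hij
        · exfalso
          refine key a b b' (j - i) (by omega) (by omega) hab hab' ?_
          have e : (j : ℕ) = (j - i) + i := by omega
          rw [e, pow_add, ← mul_assoc] at h
          exact mul_right_cancel h
        · have : i = j := Fin.ext hij
          subst this
          have := mul_right_cancel h
          subst this
          rfl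
        · exfalso
          refine key a b' b (i - j) (by omega) (by omega) hab' hab ?_
          have e : (i : ℕ) = (i - j) + j := by omega
          rw [e, pow_add, ← mul_assoc] at h
          exact (mul_right_cancel h).symm
    · have hαB : (α : G ⧸ N) ∈ B := ⟨α, hα, rfl⟩
      refine hinj (fun p => (p.2.1.1 * ⟨(α : G ⧸ N), hαB⟩ ^ (p.1 : ℕ), p.2.1.2)) ?_
      have key : ∀ (a a' b : B) (k : ℕ), 0 < k → k < M →
          (a, b) ∈ K ((x : G ⧸ N), (y : G ⧸ N)) → (a', b) ∈ K ((x : G ⧸ N), (y : G ⧸ N)) →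
          a = a' * ⟨(α : G ⧸ N), hαB⟩ ^ k → False := by
        intro a a' b k hk hkM h3 h4 h5
        have h3' := hmem _ h3
        have h4' := hmem _ h4
        simp only at h3' h4'
        have h5' : (a : G ⧸ N) = a' * (α : G ⧸ N) ^ k := by rw [h5]; rfl
        apply h1 k hk hkM
        have hak : (α : G ⧸ N) ^ k ∈ B := B.pow_mem hαB k
        -- `α^k * (y b) = (y b) * ψ(α^k)`
        have e1 : (α : G ⧸ N) ^ k * ((y : G ⧸ N) * b) =
            ((y : G ⧸ N) * b) * ψ ((α : G ⧸ N) ^ k) := by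
          rw [h5'] at h3'
          have h6 : ((x : G ⧸ N) * a') * ((α : G ⧸ N) ^ k * ((y : G ⧸ N) * b)) =
              ((x : G ⧸ N) * a') * (((y : G ⧸ N) * b) * ψ ((α : G ⧸ N) ^ k)) := by
            calc _ = (x : G ⧸ N) * (a' * (α : G ⧸ N) ^ k) * ((y : G ⧸ N) * b) := by
                  simp only [mul_assoc]
              _ = (y : G ⧸ N) * b * ψ ((x : G ⧸ N) * (a' * (α : G ⧸ N) ^ k)) := h3'
              _ = ((y : G ⧸ N) * b * ψ ((x : G ⧸ N) * a')) * ψ ((α : G ⧸ N) ^ k) := by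
                  rw [← mul_assoc (x : G ⧸ N), map_mul ψ ((x : G ⧸ N) * a'), mul_assoc,
                    mul_assoc, mul_assoc]
              _ = _ := by rw [← h4']; simp only [mul_assoc]
          exact mul_left_cancel h6
        have e2 : ψ ((α : G ⧸ N) ^ k) * b = b * ψ ((α : G ⧸ N) ^ k) :=
          hBc _ (hBψ _ hak) _ b.2
        have e3 : (α : G ⧸ N) ^ k * (y : G ⧸ N) = (y : G ⧸ N) * ψ ((α : G ⧸ N) ^ k) := by
          apply mul_right_cancel (b := (b : G ⧸ N))
          rw [mul_assoc, e1, mul_assoc, mul_assoc, e2]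
        rw [← QuotientGroup.eq_one_iff]
        have e4 : ((φ (α ^ k) : G) : G ⧸ N) = ψ ((α : G ⧸ N) ^ k) := by
          rw [← QuotientGroup.mk_pow, hψmk]
        rw [QuotientGroup.mk_mul, QuotientGroup.mk_inv, e4]
        simp only [QuotientGroup.mk_mul, QuotientGroup.mk_inv, QuotientGroup.mk_pow]
        rw [mul_assoc ((y : G ⧸ N))⁻¹, e3]
        group
      rintro ⟨i, ⟨⟨a, b⟩, hab⟩⟩ ⟨j, ⟨⟨a', b'⟩, hab'⟩⟩ h
      simp only [Prod.mk.injEq] at h
      obtain ⟨h, rfl⟩ := h
      rcases lt_trichotomy (i : ℕ) (j : ℕ) with hij | hij | hij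
      · exfalso
        refine key a a' b (j - i) (by omega) (by omega) hab hab' ?_
        have e : (j : ℕ) = (j - i) + i := by omega
        rw [e, pow_add, ← mul_assoc] at h
        exact mul_right_cancel h
      · have : i = j := Fin.ext hij
        subst this
        have := mul_right_cancel h
        subst this
        rfl
      · exfalso
        refine key a' a b (i - j) (by omega) (by omega) hab' hab ?_
        have e : (i : ℕ) = (i - j) + j := by omega
        rw [e, pow_add, ← mul_assoc] at h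
        exact (mul_right_cancel h).symm
  have hmain : M * S.card ≤ M * Nat.card (PN A N φ) + (Nat.card (G ⧸ N)) ^ 2 := by
    have hpos : 0 < Fintype.card (B × B) := Fintype.card_pos
    apply Nat.le_of_mul_le_mul_left _ hpos
    calc Fintype.card (B × B) * (M * S.card) = M * ∑ r, (K r).card := by rw [hdouble]; ring
      _ = ∑ r, M * (K r).card := Finset.mul_sum _ _ _
      _ ≤ ∑ r : (G ⧸ N) × (G ⧸ N), ((if r ∈ PN A N φ then M * Fintype.card (B × B) else 0) +
          Fintype.card (B × B)) := by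
          refine Finset.sum_le_sum fun r _ => ?_
          by_cases h : r ∈ PN A N φ
          · rw [if_pos h]
            have := Nat.mul_le_mul_left M (hKle r)
            omega
          · rw [if_neg h, zero_add]
            exact hKM r h
      _ = _ := by
          rw [Finset.sum_add_distrib, ← Finset.sum_filter, Finset.sum_const, Finset.sum_const,
            Finset.card_univ, smul_eq_mul, smul_eq_mul, Fintype.card_prod (G ⧸ N)]
          have e1 : (Finset.univ.filter fun r => r ∈ PN A N φ).card = Nat.card (PN A N φ) := by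
            rw [Nat.card_eq_fintype_card, Fintype.card_subtype]
          rw [e1, Nat.card_eq_fintype_card (α := G ⧸ N)]
          ring
  have hScard : (Nat.card {p : (G ⧸ N) × (G ⧸ N) | p.1 * p.2 = p.2 * ψ p.1}) = S.card := by
    rw [Nat.card_eq_fintype_card, hS]
    exact Fintype.card_subtype _
  unfold tdcFin
  rw [hScard]
  have hQ : (0 : ℝ) < (Nat.card (G ⧸ N) : ℝ) := by
    exact_mod_cast Nat.card_pos
  have hM' : (0 : ℝ) < M := by exact_mod_cast hM
  rw [div_add_div _ _ (by positivity) hM'.ne', div_le_div_iff₀ (by positivity) (by positivity)]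
  have h6 : (M : ℝ) * S.card ≤ M * Nat.card (PN A N φ) + (Nat.card (G ⧸ N)) ^ 2 := by
    exact_mod_cast hmain
  calc (S.card : ℝ) * ((Nat.card (G ⧸ N) : ℝ) ^ 2 * M)
      = (M * S.card) * (Nat.card (G ⧸ N) : ℝ) ^ 2 := by ring
    _ ≤ (M * Nat.card (PN A N φ) + (Nat.card (G ⧸ N)) ^ 2) * (Nat.card (G ⧸ N) : ℝ) ^ 2 := by
        gcongr
    _ = _ := by ring


/-! ### Deep subgroups of a torsion-free abelian subgroup -/

theorem torsion_exponent (M : Type) [AddCommGroup M] [Module.Finite ℤ M] :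
    ∃ e : ℕ, 0 < e ∧ ∀ (b : M) (n : ℕ), 0 < n → n • b = 0 → e • b = 0 := by
  have h1 : Finite (Submodule.torsion ℤ M) :=
    Module.finite_of_fg_torsion _ (Submodule.torsion_isTorsion (R := ℤ) (M := M))
  refine ⟨Nat.card (Submodule.torsion ℤ M), Nat.card_pos, fun b n hn hb => ?_⟩
  have h2 : b ∈ Submodule.torsion ℤ M := by
    rw [Submodule.mem_torsion_iff]
    refine ⟨⟨(n : ℤ), mem_nonZeroDivisors_of_ne_zero (by exact_mod_cast hn.ne')⟩, ?_⟩
    show (n : ℤ) • b = 0
    rw [natCast_zsmul, hb]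
  have h3 : Nat.card (Submodule.torsion ℤ M) • (⟨b, h2⟩ : Submodule.torsion ℤ M) = 0 :=
    card_nsmul_eq_zero'
  exact congrArg Subtype.val h3

theorem not_divisible (M : Type) [AddCommGroup M] [Module.Finite ℤ M]
    (htf : ∀ (b : M) (n : ℕ), 0 < n → n • b = 0 → b = 0) (w : M) (hw : w ≠ 0) :
    ∃ k : ℕ, 0 < k ∧ ∀ a : M, k • a ≠ w := by
  have h0 : Module.IsTorsionFree ℤ M := by
    rw [Module.isTorsionFree_iff_smul_eq_zero]
    intro n b h
    by_contra hcon
    push Not at hcon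
    apply hcon.2
    apply htf b n.natAbs (Int.natAbs_pos.2 hcon.1)
    rcases Int.natAbs_eq n with h1 | h1
    · rw [h1] at h; rwa [natCast_zsmul] at h
    · rw [h1, neg_smul, neg_eq_zero] at h; rwa [natCast_zsmul] at h
  let b := Module.Free.chooseBasis ℤ M
  have h1 : ∃ i, b.repr w i ≠ 0 := by
    by_contra hcon
    push Not at hcon
    apply hw
    apply b.repr.injective
    ext i
    simpa using hcon i
  obtain ⟨i, hi⟩ := h1
  refine ⟨(b.repr w i).natAbs + 1, Nat.succ_pos _, fun a ha => ?_⟩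
  have h2 : b.repr w i = ((b.repr w i).natAbs + 1 : ℕ) * b.repr a i := by
    conv_lhs => rw [← ha]
    rw [map_nsmul, Finsupp.smul_apply, nsmul_eq_mul]
  have h3 : b.repr a i ≠ 0 := by
    intro h; rw [h, mul_zero] at h2; exact hi h2
  have h4 : (b.repr w i).natAbs = ((b.repr w i).natAbs + 1) * (b.repr a i).natAbs := by
    conv_lhs => rw [h2]
    rw [Int.natAbs_mul, Int.natAbs_natCast]
  have h5 : 1 ≤ (b.repr a i).natAbs := Int.natAbs_pos.2 h3
  have h6 := Nat.mul_le_mul_left ((b.repr w i).natAbs + 1) h5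
  rw [← h4] at h6
  omega

/-- The subgroup of `k`-th powers of an abelian subgroup. -/
def powSub (A : Subgroup G) (hc : ∀ a ∈ A, ∀ b ∈ A, a * b = b * a) (k : ℕ) : Subgroup G where
  carrier := {x | ∃ a ∈ A, a ^ k = x}
  mul_mem' := by
    rintro _ _ ⟨a, ha, rfl⟩ ⟨b, hb, rfl⟩
    exact ⟨a * b, A.mul_mem ha hb, (show Commute a b from hc a ha b hb).mul_pow k⟩
  one_mem' := ⟨1, A.one_mem, one_pow k⟩
  inv_mem' := by
    rintro _ ⟨a, ha, rfl⟩
    exact ⟨a⁻¹, A.inv_mem ha, inv_pow a k⟩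

theorem mem_powSub {A : Subgroup G} {hc : ∀ a ∈ A, ∀ b ∈ A, a * b = b * a} {k : ℕ} {x : G} :
    x ∈ powSub A hc k ↔ ∃ a ∈ A, a ^ k = x := Iff.rfl

theorem powSub_le (A : Subgroup G) (hc : ∀ a ∈ A, ∀ b ∈ A, a * b = b * a) (k : ℕ) :
    powSub A hc k ≤ A := by
  rintro _ ⟨a, ha, rfl⟩
  exact A.pow_mem ha k

theorem powSub_normal (A : Subgroup G) [hA : A.Normal] (hc : ∀ a ∈ A, ∀ b ∈ A, a * b = b * a)
    (k : ℕ) : (powSub A hc k).Normal := by
  refine ⟨?_⟩
  rintro _ ⟨a, ha, rfl⟩ g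
  exact ⟨g * a * g⁻¹, hA.conj_mem a ha g, conj_pow⟩

theorem powSub_comap (A : Subgroup G) (hc : ∀ a ∈ A, ∀ b ∈ A, a * b = b * a)
    (k : ℕ) (φ : G →* G) (hφ : A ≤ A.comap φ) : powSub A hc k ≤ (powSub A hc k).comap φ := by
  rintro _ ⟨a, ha, rfl⟩
  exact ⟨φ a, hφ ha, (map_pow φ a k).symm⟩

theorem powSub_finiteIndex (A : Subgroup G) [A.FiniteIndex] [Group.FG A]
    (hc : ∀ a ∈ A, ∀ b ∈ A, a * b = b * a) (k : ℕ) (hk : 0 < k) :
    (powSub A hc k).FiniteIndex := by
  let _ : CommGroup A := { (inferInstance : Group A) with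
    mul_comm := fun a b => Subtype.ext (hc a a.2 b b.2) }
  let R : Subgroup A := (powMonoidHom k : A →* A).range
  have h1 : powSub A hc k = R.map A.subtype := by
    ext x
    constructor
    · rintro ⟨a, ha, rfl⟩
      exact ⟨(⟨a, ha⟩ : A) ^ k, ⟨⟨a, ha⟩, rfl⟩, rfl⟩
    · rintro ⟨_, ⟨a, rfl⟩, rfl⟩
      exact ⟨a, a.2, rfl⟩
  have h2 : Finite (A ⧸ R) := by
    apply CommGroup.finite_of_fg_isMulTorsion
    intro q
    obtain ⟨a, rfl⟩ := QuotientGroup.mk_surjective q
    rw [isOfFinOrder_iff_pow_eq_one]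
    refine ⟨k, hk, ?_⟩
    rw [← QuotientGroup.mk_pow, QuotientGroup.eq_one_iff]
    exact ⟨a, rfl⟩
  refine ⟨?_⟩
  rw [h1, Subgroup.index_map_subtype]
  refine mul_ne_zero ?_ Subgroup.FiniteIndex.index_ne_zero
  exact (Subgroup.finiteIndex_of_finite_quotient (H := R)).index_ne_zero

/-- A torsion-free abelian subgroup of finite index which is invariant under all endomorphisms. -/
theorem exists_A [Group.FG G] (h : ∃ B : Subgroup G, B.FiniteIndex ∧ ∀ a ∈ B, ∀ b ∈ B,
    a * b = b * a) : ∃ A : Subgroup G, A.Normal ∧ A.FiniteIndex ∧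
    (∀ a ∈ A, ∀ b ∈ A, a * b = b * a) ∧ (∀ φ : G →* G, A ≤ A.comap φ) ∧
    (∀ a ∈ A, ∀ n : ℕ, 0 < n → a ^ n = 1 → a = 1) := by
  obtain ⟨B₀, hB₀, hc₀⟩ := h
  set B := B₀.normalCore with hBdef
  have hBn : B.Normal := Subgroup.normalCore_normal B₀
  have hBf : B.FiniteIndex := Subgroup.finiteIndex_normalCore B₀
  have hc : ∀ a ∈ B, ∀ b ∈ B, a * b = b * a := fun a ha b hb =>
    hc₀ a (B₀.normalCore_le ha) b (B₀.normalCore_le hb)
  have hBfg : Group.FG B := inferInstance
  have hexp : ∃ e : ℕ, 0 < e ∧ ∀ b ∈ B, ∀ n : ℕ, 0 < n → b ^ n = 1 → b ^ e = 1 := by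
    let _ : CommGroup B := { (inferInstance : Group B) with
      mul_comm := fun a b => Subtype.ext (hc a a.2 b b.2) }
    have hfin : Module.Finite ℤ (Additive B) := Module.Finite.iff_addGroup_fg.mpr inferInstance
    obtain ⟨e, he, h⟩ := torsion_exponent (Additive B)
    refine ⟨e, he, fun b hb n hn hbn => ?_⟩
    have := h (Additive.ofMul ⟨b, hb⟩) n hn (by
      rw [← ofMul_pow]
      exact congrArg Additive.ofMul (Subtype.ext hbn))
    rw [← ofMul_pow] at this
    exact congrArg Subtype.val (Additive.ofMul.injective this)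
  obtain ⟨e, he, hexp⟩ := hexp
  have hidx : 0 < B.index := Nat.pos_of_ne_zero hBf.index_ne_zero
  set m := B.index * e with hm
  have hmpos : 0 < m := Nat.mul_pos hidx he
  refine ⟨Subgroup.closure (Set.range fun g : G => g ^ m), ?_, ?_, ?_, ?_, ?_⟩
  · refine ⟨fun x hx g => ?_⟩
    induction hx using Subgroup.closure_induction with
    | mem y hy =>
      obtain ⟨a, rfl⟩ := hy
      exact Subgroup.subset_closure ⟨g * a * g⁻¹, conj_pow⟩
    | one => simp
    | mul a b _ _ ha hb =>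
      have : g * (a * b) * g⁻¹ = (g * a * g⁻¹) * (g * b * g⁻¹) := by group
      rw [this]
      exact Subgroup.mul_mem _ ha hb
    | inv a _ ha =>
      have : g * a⁻¹ * g⁻¹ = (g * a * g⁻¹)⁻¹ := by group
      rw [this]
      exact Subgroup.inv_mem _ ha
  · have h1 := powSub_finiteIndex B hc m hmpos
    refine Subgroup.finiteIndex_of_le (H := powSub B hc m) ?_
    rintro _ ⟨a, _, rfl⟩
    exact Subgroup.subset_closure ⟨a, rfl⟩
  · have hle : Subgroup.closure (Set.range fun g : G => g ^ m) ≤ powSub B hc e := by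
      rw [Subgroup.closure_le]
      rintro _ ⟨g, rfl⟩
      exact ⟨g ^ B.index, Subgroup.pow_index_mem B g, by rw [← pow_mul]⟩
    intro a ha b hb
    exact hc a (powSub_le B hc e (hle ha)) b (powSub_le B hc e (hle hb))
  · intro φ
    rw [Subgroup.closure_le]
    rintro _ ⟨g, rfl⟩
    exact Subgroup.subset_closure ⟨φ g, (map_pow φ g m).symm⟩
  · have hle : Subgroup.closure (Set.range fun g : G => g ^ m) ≤ powSub B hc e := by
      rw [Subgroup.closure_le]
      rintro _ ⟨g, rfl⟩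
      exact ⟨g ^ B.index, Subgroup.pow_index_mem B g, by rw [← pow_mul]⟩
    intro a ha n hn han
    obtain ⟨b, hb, rfl⟩ := hle ha
    exact hexp b hb (e * n) (Nat.mul_pos he hn) (by rw [pow_mul]; exact han)

/-- Finitely many nontrivial elements can be avoided by some `k`-th powers. -/
theorem avoid (A : Subgroup G) [Group.FG A] (hc : ∀ a ∈ A, ∀ b ∈ A, a * b = b * a)
    (htf : ∀ a ∈ A, ∀ n : ℕ, 0 < n → a ^ n = 1 → a = 1) (W : Set G) (hW : W.Finite)
    (h1 : (1 : G) ∉ W) : ∃ k : ℕ, 0 < k ∧ ∀ w ∈ W, w ∉ powSub A hc k := by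
  have single : ∀ w : G, w ≠ 1 → ∃ k : ℕ, 0 < k ∧ w ∉ powSub A hc k := by
    intro w hw
    by_cases hwA : w ∈ A
    · let _ : CommGroup A := { (inferInstance : Group A) with
        mul_comm := fun a b => Subtype.ext (hc a a.2 b b.2) }
      have hfin : Module.Finite ℤ (Additive A) := Module.Finite.iff_addGroup_fg.mpr inferInstance
      obtain ⟨k, hk, h⟩ := not_divisible (Additive A) (by
        intro b n hn hb
        have h2 : (Additive.toMul b) ^ n = 1 := hb
        have h3 := htf (Additive.toMul b : A) (Additive.toMul b : A).2 n hn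
          (congrArg Subtype.val h2)
        have h4 : Additive.toMul b = (1 : A) := Subtype.ext h3
        exact h4) (Additive.ofMul ⟨w, hwA⟩) (by
          intro h
          apply hw
          have h2 : (⟨w, hwA⟩ : A) = 1 := h
          exact congrArg Subtype.val h2)
      refine ⟨k, hk, ?_⟩
      rintro ⟨a, ha, hak⟩
      apply h (Additive.ofMul ⟨a, ha⟩)
      have : (⟨a, ha⟩ : A) ^ k = ⟨w, hwA⟩ := Subtype.ext hak
      exact this
    · exact ⟨1, one_pos, fun h => hwA (powSub_le A hc 1 h)⟩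
  induction W, hW using Set.Finite.induction_on with
  | empty => exact ⟨1, one_pos, by simp⟩
  | @insert w W _ _ ih =>
    obtain ⟨k, hk, h⟩ := ih fun h => h1 (Set.mem_insert_of_mem _ h)
    obtain ⟨k', hk', h'⟩ := single w (by rintro rfl; exact h1 (Set.mem_insert _ _))
    refine ⟨k * k', Nat.mul_pos hk hk', ?_⟩
    intro x hx
    rcases hx with rfl | hx
    · rintro ⟨a, ha, hak⟩
      exact h' ⟨a ^ k, A.pow_mem ha k, by rw [← pow_mul]; exact hak⟩
    · rintro ⟨a, ha, hak⟩
      exact h x hx ⟨a ^ k', A.pow_mem ha k', by rw [← pow_mul, mul_comm k']; exact hak⟩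


/-- Deep subgroups exist. -/
theorem exists_good (A : Subgroup G) [hA : A.Normal] [A.FiniteIndex] [Group.FG A]
    (hc : ∀ a ∈ A, ∀ b ∈ A, a * b = b * a)
    (htf : ∀ a ∈ A, ∀ n : ℕ, 0 < n → a ^ n = 1 → a = 1) (φ : G →* G) (hφ : A ≤ A.comap φ)
    (M : ℕ) : ∃ k : ℕ, 0 < k ∧ Good A (powSub A hc k) φ M := by
  classical
  have hQ : Finite (G ⧸ A) := inferInstance
  let σ : G ⧸ A → G := Quotient.out
  have hσ : ∀ g : G, ∃ a ∈ A, g = σ (g : G ⧸ A) * a := by
    intro g
    refine ⟨(σ (g : G ⧸ A))⁻¹ * g, ?_, by group⟩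
    rw [← QuotientGroup.eq]
    exact Quotient.out_eq _
  -- the three kinds of elements to avoid
  have c1 : ∀ q : G ⧸ A, ∃ α ∈ A, (∀ a ∈ A, (σ q)⁻¹ * a * σ q = φ a) ∨
      ((σ q)⁻¹ * α * σ q) * (φ α)⁻¹ ≠ 1 := by
    intro q
    by_cases h : ∀ a ∈ A, (σ q)⁻¹ * a * σ q = φ a
    · exact ⟨1, A.one_mem, Or.inl h⟩
    · push Not at h
      obtain ⟨α, hα, h⟩ := h
      refine ⟨α, hα, Or.inr fun h' => h ?_⟩
      rwa [mul_inv_eq_one] at h'
  choose α hαA hα using c1
  have c2 : ∀ q : G ⧸ A, ∃ β ∈ A, (∀ a ∈ A, φ (σ q) * a = a * φ (σ q)) ∨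
      ((φ (σ q))⁻¹ * β * φ (σ q)) * β⁻¹ ≠ 1 := by
    intro q
    by_cases h : ∀ a ∈ A, φ (σ q) * a = a * φ (σ q)
    · exact ⟨1, A.one_mem, Or.inl h⟩
    · push Not at h
      obtain ⟨β, hβ, h⟩ := h
      refine ⟨β, hβ, Or.inr fun h' => h ?_⟩
      rw [mul_inv_eq_one] at h'
      calc φ (σ q) * β = φ (σ q) * ((φ (σ q))⁻¹ * β * φ (σ q)) := by rw [h']
        _ = _ := by group
  choose β hβA hβ using c2
  let w1 : G ⧸ A → ℕ → G := fun q j => (((σ q)⁻¹ * α q * σ q) * (φ (α q))⁻¹) ^ j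
  let w2 : G ⧸ A → ℕ → G := fun q j => (((φ (σ q))⁻¹ * β q * φ (σ q)) * (β q)⁻¹) ^ j
  let w3 : (G ⧸ A) × (G ⧸ A) → G := fun r => (σ r.2 * φ (σ r.1))⁻¹ * (σ r.1 * σ r.2)
  let W : Set G := ((fun p : (G ⧸ A) × Fin M => w1 p.1 p.2) '' Set.univ ∪
    (fun p : (G ⧸ A) × Fin M => w2 p.1 p.2) '' Set.univ ∪ w3 '' Set.univ) \ {1}
  have hW : W.Finite := by
    apply Set.Finite.sdiff
    exact ((Set.finite_univ.image _).union (Set.finite_univ.image _)).union
      (Set.finite_univ.image _)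
  obtain ⟨k, hk, hav⟩ := avoid A hc htf W hW (fun h => h.2 rfl)
  refine ⟨k, hk, ?_, ?_, ?_⟩
  · intro y
    obtain ⟨a, ha, hya⟩ := hσ y
    set q : G ⧸ A := (y : G ⧸ A) with hq
    have hconj : ∀ b ∈ A, y⁻¹ * b * y = (σ q)⁻¹ * b * σ q := by
      intro b hb
      have h1 : (σ q)⁻¹ * b * σ q ∈ A := by
        have := hA.conj_mem b hb (σ q)⁻¹
        rwa [inv_inv] at this
      calc y⁻¹ * b * y = a⁻¹ * (((σ q)⁻¹ * b * σ q) * a) := by
            conv_lhs => rw [hya]
            group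
        _ = a⁻¹ * (a * ((σ q)⁻¹ * b * σ q)) := by rw [hc _ h1 a ha]
        _ = _ := by group
    rcases hα q with h | h
    · left
      intro b hb
      rw [hconj b hb, h b hb]
    · right
      refine ⟨α q, hαA q, fun j hj hjM => ?_⟩
      have h1 : (σ q)⁻¹ * α q * σ q ∈ A := by
        have := hA.conj_mem (α q) (hαA q) (σ q)⁻¹
        rwa [inv_inv] at this
      have h2 : φ (α q) ∈ A := hφ (hαA q)
      have h3 : (y⁻¹ * α q ^ j * y) * (φ (α q ^ j))⁻¹ = w1 q j := by
        have e1 : Commute ((σ q)⁻¹ * α q * σ q) (φ (α q))⁻¹ := hc _ h1 _ (A.inv_mem h2)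
        simp only [w1]
        rw [e1.mul_pow, hconj _ (A.pow_mem (hαA q) j), inv_pow, map_pow]
        congr 1
        have := conj_pow (i := j) (a := (σ q)⁻¹) (b := α q)
        rw [inv_inv] at this
        exact this.symm
      rw [h3]
      apply hav
      refine ⟨Or.inl (Or.inl ⟨(q, ⟨j, hjM⟩), trivial, rfl⟩), ?_⟩
      intro h4
      exact h (htf _ (A.mul_mem h1 (A.inv_mem h2)) j hj h4)
  · intro x
    obtain ⟨a, ha, hxa⟩ := hσ x
    set q : G ⧸ A := (x : G ⧸ A) with hq
    have hφa : φ a ∈ A := hφ ha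
    have hφx : φ x = φ (σ q) * φ a := by rw [← map_mul, ← hxa]
    rcases hβ q with h | h
    · left
      intro b hb
      rw [hφx, mul_assoc, hc _ hφa b hb, ← mul_assoc, h b hb, mul_assoc]
    · right
      refine ⟨β q, hβA q, fun j hj hjM => ?_⟩
      have h1 : (φ (σ q))⁻¹ * β q * φ (σ q) ∈ A := by
        have := hA.conj_mem (β q) (hβA q) (φ (σ q))⁻¹
        rwa [inv_inv] at this
      have h1j : (φ (σ q))⁻¹ * β q ^ j * φ (σ q) ∈ A := by
        have := hA.conj_mem (β q ^ j) (A.pow_mem (hβA q) j) (φ (σ q))⁻¹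
        rwa [inv_inv] at this
      have h3 : ((φ x)⁻¹ * β q ^ j * φ x) * (β q ^ j)⁻¹ = w2 q j := by
        have e1 : Commute ((φ (σ q))⁻¹ * β q * φ (σ q)) (β q)⁻¹ := hc _ h1 _ (A.inv_mem (hβA q))
        simp only [w2]
        rw [e1.mul_pow, inv_pow]
        congr 1
        have := conj_pow (i := j) (a := (φ (σ q))⁻¹) (b := β q)
        rw [inv_inv] at this
        rw [this, hφx]
        calc (φ (σ q) * φ a)⁻¹ * β q ^ j * (φ (σ q) * φ a)
            = (φ a)⁻¹ * (((φ (σ q))⁻¹ * β q ^ j * φ (σ q)) * φ a) := by group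
          _ = (φ a)⁻¹ * (φ a * ((φ (σ q))⁻¹ * β q ^ j * φ (σ q))) := by rw [hc _ h1j _ hφa]
          _ = _ := by group
      rw [h3]
      apply hav
      refine ⟨Or.inl (Or.inr ⟨(q, ⟨j, hjM⟩), trivial, rfl⟩), ?_⟩
      intro h4
      exact h (htf _ (A.mul_mem h1 (A.inv_mem (hβA q))) j hj h4)
  · intro x y h1 h2 h3
    obtain ⟨a, ha, hxa⟩ := hσ x
    obtain ⟨b, hb, hyb⟩ := hσ y
    set q : G ⧸ A := (x : G ⧸ A) with hq
    set r : G ⧸ A := (y : G ⧸ A) with hr
    have hφa : φ a ∈ A := hφ ha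
    have h1' : ∀ c ∈ A, (σ r)⁻¹ * c * σ r = φ c := by
      intro c hcA
      rw [← h1 c hcA, hyb]
      have h4 : (σ r)⁻¹ * c * σ r ∈ A := by
        have := hA.conj_mem c hcA (σ r)⁻¹
        rwa [inv_inv] at this
      calc (σ r)⁻¹ * c * σ r = b⁻¹ * (b * ((σ r)⁻¹ * c * σ r)) := by group
        _ = b⁻¹ * (((σ r)⁻¹ * c * σ r) * b) := by rw [hc _ h4 b hb]
        _ = _ := by group
    have h2' : ∀ c ∈ A, φ (σ q) * c = c * φ (σ q) := by
      intro c hcA
      have h4 := h2 c hcA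
      have hφx : φ x = φ (σ q) * φ a := by rw [← map_mul, ← hxa]
      rw [hφx, mul_assoc, hc _ hφa c hcA, ← mul_assoc, ← mul_assoc] at h4
      exact mul_right_cancel h4
    intro hmem
    have key : (y * φ x)⁻¹ * (x * y) = w3 (q, r) := by
      have hφx : φ x = φ (σ q) * φ a := by rw [← map_mul, ← hxa]
      simp only [w3]
      have e1 : x * y = σ q * σ r * (φ a * b) := by
        conv_lhs => rw [hxa, hyb]
        calc σ q * a * (σ r * b) = σ q * (σ r * ((σ r)⁻¹ * a * σ r)) * b := by group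
          _ = _ := by rw [h1' a ha]; group
      have e2 : y * φ x = σ r * φ (σ q) * (φ a * b) := by
        rw [hφx]
        conv_lhs => rw [hyb]
        calc σ r * b * (φ (σ q) * φ a) = σ r * (b * φ (σ q)) * φ a := by group
          _ = σ r * φ (σ q) * (b * φ a) := by rw [← h2' b hb]; group
          _ = _ := by rw [hc b hb _ hφa]
      have e3 : (y * φ x)⁻¹ * (x * y) ∈ A := powSub_le A hc k hmem
      have hcA : φ a * b ∈ A := A.mul_mem hφa hb
      have e4 := hc _ hcA _ e3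
      have e5 : (σ r * φ (σ q))⁻¹ * (σ q * σ r) =
          (φ a * b) * ((y * φ x)⁻¹ * (x * y)) * (φ a * b)⁻¹ := by
        rw [e1, e2]; group
      rw [e5, e4, mul_inv_cancel_right]
    rw [key] at hmem
    refine hav _ ⟨Or.inr ⟨(q, r), trivial, rfl⟩, ?_⟩ hmem
    intro h4
    rw [← key] at h4
    apply h3
    exact (inv_mul_eq_one.1 h4).symm


/-! ### The main theorem -/

/-- The degree of twisted commutativity of `G` with respect to `X` and `φ`. -/
noncomputable def tdc (X : Finset G) (φ : G →* G) : ℝ :=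
  limsup (fun n : ℕ => (Nat.card {p : G × G | p.1 ∈ ball X n ∧ p.2 ∈ ball X n ∧
    p.1 * p.2 = p.2 * φ p.1} : ℝ) / (Nat.card (ball X n) : ℝ) ^ 2) atTop

/-- The infimum over the finite quotients by `φ`-invariant normal subgroups. -/
noncomputable def I (φ : G →* G) : ℝ :=
  sInf {t : ℝ | ∃ (N : Subgroup G) (_ : N.Normal) (hφ : N ≤ N.comap φ), N.FiniteIndex ∧
    t = tdcFin (G ⧸ N) (QuotientGroup.map N N φ hφ)}

theorem pairs_finite (X : Finset G) (n : ℕ) (P : G × G → Prop) :
    {p : G × G | p.1 ∈ ball X n ∧ p.2 ∈ ball X n ∧ P p}.Finite := by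
  classical
  refine Set.Finite.subset ((Finset.finite_toSet (U X ^ n)).prod (Finset.finite_toSet (U X ^ n))) ?_
  rintro p ⟨h1, h2, -⟩
  rw [ball_eq] at h1 h2
  exact ⟨h1, h2⟩

theorem PP_invariant (A N : Subgroup G) [hN : N.Normal] (hNA : N ≤ A)
    (hc : ∀ a ∈ A, ∀ b ∈ A, a * b = b * a) (φ : G →* G) (hφA : A ≤ A.comap φ)
    (p : G × G) (hp : ((p.1 : G ⧸ N), (p.2 : G ⧸ N)) ∈ PN A N φ) : p ∈ PP A φ := by
  obtain ⟨⟨x, y⟩, ⟨h1, h2, h3⟩, h4⟩ := hp
  obtain ⟨h5, h6⟩ := Prod.ext_iff.1 h4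
  simp only at h1 h2 h3 h5 h6
  have h7 : x⁻¹ * p.1 ∈ A := hNA (QuotientGroup.eq.1 h5.symm)
  have h8 : y⁻¹ * p.2 ∈ A := hNA (QuotientGroup.eq.1 h6.symm)
  obtain ⟨a, ha, hpa⟩ : ∃ a ∈ A, p.1 = x * a := ⟨_, h7, by group⟩
  obtain ⟨b, hb, hpb⟩ : ∃ b ∈ A, p.2 = y * b := ⟨_, h8, by group⟩
  have hφa : φ a ∈ A := hφA ha
  refine ⟨fun c hcA => ?_, fun c hcA => ?_, ?_⟩
  · rw [hpb]
    have h9 : φ c ∈ A := hφA hcA
    calc (y * b)⁻¹ * c * (y * b) = b⁻¹ * ((y⁻¹ * c * y) * b) := by group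
      _ = b⁻¹ * (b * φ c) := by rw [h1 c hcA, hc _ h9 b hb]
      _ = _ := by group
  · rw [hpa, map_mul, mul_assoc, hc _ hφa c hcA, ← mul_assoc, h2 c hcA, mul_assoc]
  · rw [hpa, hpb, map_mul]
    calc x * a * (y * b) = x * (y * (y⁻¹ * a * y)) * b := by group
      _ = (x * y) * (φ a * b) := by rw [h1 a ha]; group
      _ = y * (φ x * b) * φ a := by rw [h3, hc _ hφa b hb]; group
      _ = _ := by rw [h2 b hb]; group

end Growth

/-- **Main theorem.**  For every finitely generated virtually abelian group `G`, every finite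
generating set `X` of `G` and every endomorphism `φ` of `G`, the degree of twisted commutativity
`tdc X φ` equals the infimum `I φ` of the degrees of twisted commutativity of the finite quotients
of `G` by `φ`-invariant normal subgroups.  Moreover the limsup defining `tdc X φ` is a limit. -/
theorem result (G : Type) [Group G]
    (hva : ∃ B : Subgroup G, B.FiniteIndex ∧ ∀ a ∈ B, ∀ b ∈ B, a * b = b * a)
    (X : Finset G) (hX : Subgroup.closure (X : Set G) = ⊤) (φ : G →* G) :
    tdc X φ = I φ ∧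
    Tendsto (fun n : ℕ => (Nat.card {p : G × G | p.1 ∈ ball X n ∧ p.2 ∈ ball X n ∧
      p.1 * p.2 = p.2 * φ p.1} : ℝ) / (Nat.card (ball X n) : ℝ) ^ 2) atTop (𝓝 (I φ)) := by
  have hFG : Group.FG G := ⟨⟨X, hX⟩⟩
  obtain ⟨A, hAn, hAf, hc, hinv, htf⟩ := exists_A hva
  have hAfg : Group.FG A := inferInstance
  obtain ⟨C, hC⟩ := doubling A hc X hX
  have hr := ratio_one X C hC
  set R : ℕ → ℝ := fun n => (Nat.card {p : G × G | p.1 ∈ ball X n ∧ p.2 ∈ ball X n ∧
      p.1 * p.2 = p.2 * φ p.1} : ℝ) / (Nat.card (ball X n) : ℝ) ^ 2 with hR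
  -- the persistent part
  set T : ℝ := (Nat.card (PN A A φ) : ℝ) / (Nat.card (G ⧸ A) : ℝ) ^ 2 with hT
  set RP : ℕ → ℝ := fun n => (Nat.card {p : G × G | p.1 ∈ ball X n ∧ p.2 ∈ ball X n ∧
      p ∈ PP A φ} : ℝ) / (Nat.card (ball X n) : ℝ) ^ 2 with hRP
  have hPN : ∀ (N : Subgroup G) [N.Normal] [N.FiniteIndex], N ≤ A →
      Tendsto RP atTop (𝓝 ((Nat.card (PN A N φ) : ℝ) / (Nat.card (G ⧸ N) : ℝ) ^ 2)) := by
    intro N _ _ hNA
    have h := equi_pairs X hX hr N (PN A N φ)
    refine h.congr fun n => ?_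
    simp only [hRP]
    have hset : {p : G × G | p.1 ∈ ball X n ∧ p.2 ∈ ball X n ∧
        ((p.1 : G ⧸ N), (p.2 : G ⧸ N)) ∈ PN A N φ} =
        {p : G × G | p.1 ∈ ball X n ∧ p.2 ∈ ball X n ∧ p ∈ PP A φ} := by
      ext p
      constructor
      · rintro ⟨h1, h2, h3⟩
        exact ⟨h1, h2, PP_invariant A N hNA hc φ (hinv φ) p h3⟩
      · rintro ⟨h1, h2, h3⟩
        exact ⟨h1, h2, p, h3, rfl⟩
    rw [hset]
  have hRPT : Tendsto RP atTop (𝓝 T) := hPN A le_rfl
  have hRPR : ∀ n, RP n ≤ R n := by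
    intro n
    simp only [hRP, hR]
    gcongr
    refine Nat.card_mono (pairs_finite X n _) ?_
    rintro p ⟨h1, h2, h3⟩
    exact ⟨h1, h2, h3.2.2⟩
  -- upper bounds from the finite quotients
  have hup : ∀ (N : Subgroup G) [N.Normal] [N.FiniteIndex] (hφ : N ≤ N.comap φ),
      ∃ ρ : ℕ → ℝ, (∀ n, R n ≤ ρ n) ∧
        Tendsto ρ atTop (𝓝 (tdcFin (G ⧸ N) (QuotientGroup.map N N φ hφ))) := by
    intro N _ _ hφ
    refine ⟨_, fun n => ?_, equi_pairs X hX hr N
      {p : (G ⧸ N) × (G ⧸ N) | p.1 * p.2 = p.2 * QuotientGroup.map N N φ hφ p.1}⟩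
    simp only [hR]
    gcongr
    refine Nat.card_mono (pairs_finite X n _) ?_
    rintro p ⟨h1, h2, h3⟩
    refine ⟨h1, h2, ?_⟩
    show ((p.1 : G ⧸ N) * (p.2 : G ⧸ N)) = (p.2 : G ⧸ N) * ((φ p.1 : G) : G ⧸ N)
    rw [← QuotientGroup.mk_mul, h3, QuotientGroup.mk_mul]
  have hTle : ∀ (N : Subgroup G) [N.Normal] [N.FiniteIndex] (hφ : N ≤ N.comap φ),
      T ≤ tdcFin (G ⧸ N) (QuotientGroup.map N N φ hφ) := by
    intro N _ _ hφ
    obtain ⟨ρ, h1, h2⟩ := hup N hφ
    exact le_of_tendsto_of_tendsto' hRPT h2 fun n => (hRPR n).trans (h1 n)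
  -- good finite quotients
  have hgood : ∀ M : ℕ, 0 < M → ∃ (N : Subgroup G) (_ : N.Normal) (_ : N.FiniteIndex)
      (hφ : N ≤ N.comap φ), tdcFin (G ⧸ N) (QuotientGroup.map N N φ hφ) ≤ T + 1 / M := by
    intro M hM
    obtain ⟨k, hk, hgood⟩ := exists_good A hc htf φ (hinv φ) M
    have i1 : (powSub A hc k).Normal := powSub_normal A hc k
    have i2 : (powSub A hc k).FiniteIndex := powSub_finiteIndex A hc k hk
    have i3 : powSub A hc k ≤ (powSub A hc k).comap φ := powSub_comap A hc k φ (hinv φ)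
    refine ⟨powSub A hc k, i1, i2, i3, ?_⟩
    have h1 := fin_bound A (powSub A hc k) hc φ (hinv φ) i3 M hM hgood
    have h2 := tendsto_nhds_unique (hPN (powSub A hc k) (powSub_le A hc k)) hRPT
    rwa [h2] at h1
  have hI : I φ = T := by
    apply le_antisymm
    · apply le_of_forall_pos_le_add
      intro ε hε
      obtain ⟨M, hM⟩ := exists_nat_one_div_lt hε
      obtain ⟨N, i1, i2, i3, h1⟩ := hgood (M + 1) (Nat.succ_pos M)
      have h2 : I φ ≤ tdcFin (G ⧸ N) (QuotientGroup.map N N φ i3) := by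
        apply csInf_le
        · refine ⟨T, ?_⟩
          rintro _ ⟨N', i1', i3', i2', rfl⟩
          exact hTle N' i3'
        · exact ⟨N, i1, i3, i2, rfl⟩
      push_cast at h1
      linarith
    · apply le_csInf
      · obtain ⟨N, i1, i2, i3, -⟩ := hgood 1 one_pos
        exact ⟨_, N, i1, i3, i2, rfl⟩
      · rintro _ ⟨N', i1', i3', i2', rfl⟩
        exact hTle N' i3'
  have hlim : Tendsto R atTop (𝓝 T) := by
    rw [tendsto_order]
    constructor
    · intro a ha
      filter_upwards [(tendsto_order.1 hRPT).1 a ha] with n hn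
      exact hn.trans_le (hRPR n)
    · intro a ha
      obtain ⟨M, hM⟩ := exists_nat_one_div_lt (sub_pos.2 ha)
      obtain ⟨N, i1, i2, i3, h1⟩ := hgood (M + 1) (Nat.succ_pos M)
      obtain ⟨ρ, h2, h3⟩ := hup N i3
      push_cast at h1
      have h4 : tdcFin (G ⧸ N) (QuotientGroup.map N N φ i3) < a := by linarith
      filter_upwards [(tendsto_order.1 h3).2 a h4] with n hn
      exact (h2 n).trans_lt hn
  refine ⟨?_, by rw [hI]; exact hlim⟩
  rw [hI]
  exact hlim.limsup_eq

end Pool.Agent.Results.MP_13fe47_al.VirtuallyAbelian
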